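import Pool.Agent.Helper512.GenNumbers

set_option autoImplicit false

namespace Pool.Agent.Results.MP_183baf_al.Soluble3

/-- For some `n ≥ 2` there are finitely generated residually finite groups `G`, soluble of derived
length at most three, whose profinite completion has exactly `n` topological generators (all finite
quotients are generated by `n` elements and some finite quotient is not generated by `n - 1` elements),
while `G` itself needs more than any prescribed number `C` of generators. -/
theorem result :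
    ∃ n : ℕ, 2 ≤ n ∧ ∀ C : ℕ, ∃ (G : Type) (_ : Group G), Group.FG G ∧
      derivedSeries G 3 = ⊥ ∧
      (∀ g : G, g ≠ 1 → ∃ N : Subgroup G, N.Normal ∧ N.FiniteIndex ∧ g ∉ N) ∧
      (∀ (Q : Type) [Group Q] [Finite Q] (f : G →* Q), Function.Surjective f →
        ∃ S : Finset Q, S.card ≤ n ∧ Subgroup.closure (S : Set Q) = ⊤) ∧
      (∃ (Q : Type) (_ : Group Q) (_ : Finite Q) (f : G →* Q), Function.Surjective f ∧
        ∀ S : Finset Q, S.card ≤ n - 1 → Subgroup.closure (S : Set Q) ≠ ⊤) ∧
      ∀ S : Finset G, Subgroup.closure (S : Set G) = ⊤ → C < S.card := by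
  by_contra H
  push Not at H
  obtain ⟨C2, h2⟩ := H 2 le_rfl
  obtain ⟨C3, h3⟩ := H 3 (by norm_num)
  obtain ⟨G, instG, hfg, hder, hrf, hle3, hnc, hlow⟩ :=
    Pool.Agent.Helper512.GenNumbers.main (max C2 C3 + 1)
  by_cases hall : ∀ (Q : Type) [Group Q] [Finite Q] (f : G →* Q), Function.Surjective f →
        ∃ S : Finset Q, S.card ≤ 2 ∧ Subgroup.closure (S : Set Q) = ⊤
  · obtain ⟨S, hcl, hS⟩ := h2 G instG hfg hder hrf hall hnc
    have h4 := hlow S hcl
    have h5 := le_max_left C2 C3
    omega
  · push Not at hall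
    obtain ⟨Q, iQ, fQ, f, hf, hno⟩ := hall
    obtain ⟨S, hcl, hS⟩ := h3 G instG hfg hder hrf hle3
      ⟨Q, iQ, fQ, f, hf, fun S hS => hno S hS⟩
    have h4 := hlow S hcl
    have h5 := le_max_right C2 C3
    omega

end Pool.Agent.Results.MP_183baf_al.Soluble3
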